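import Mathlib

set_option autoImplicit false

namespace Pool.Agent.Results.MP_0c5bac_gt.Main

open Set Topology Filter

variable {X Y : Type*} [TopologicalSpace X] [TopologicalSpace Y] [RegularSpace X] {f : X → Y}

lemma step (hc : Continuous f) {W O : Set X} (hW : IsOpen W) (hO : IsOpen O) (hd : Dense O) :
    ∃ 𝒰 : Set (Set X), ((∀ U ∈ 𝒰, IsOpen U ∧ closure U ⊆ W ∩ O) ∧
      𝒰.PairwiseDisjoint (f '' ·)) ∧ f '' W ⊆ closure (⋃ U ∈ 𝒰, f '' U) := by
  obtain ⟨𝒰, h⟩ := zorn_subset {𝒰 : Set (Set X) | (∀ U ∈ 𝒰, IsOpen U ∧ closure U ⊆ W ∩ O) ∧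
      𝒰.PairwiseDisjoint (f '' ·)} fun c h1 h2 => ⟨⋃₀ c, ⟨fun U ⟨_, h3, h4⟩ => (h1 h3).1 U h4,
        (pairwise_sUnion h2.directedOn).2 fun _ h3 => (h1 h3).2⟩, fun _ => subset_sUnion_of_mem⟩
  refine ⟨𝒰, h.prop, ?_⟩
  rintro _ ⟨x, hx, rfl⟩
  by_contra h1
  have h2 := hW.inter (isClosed_closure (s := ⋃ U ∈ 𝒰, f '' U).preimage hc).isOpen_compl
  obtain ⟨z, h3⟩ := hd.inter_open_nonempty _ h2 ⟨x, hx, h1⟩
  obtain ⟨C, h4, h5, h6⟩ := exists_mem_nhds_isClosed_subset ((h2.inter hO).mem_nhds h3)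
  have h7 : closure (interior C) ⊆ C := closure_minimal interior_subset h5
  have h8 := h.eq_of_subset (show insert (interior C) 𝒰 ∈ _ from
    ⟨forall_mem_insert.2 ⟨⟨isOpen_interior, fun w hw => ⟨(h6 (h7 hw)).1.1, (h6 (h7 hw)).2⟩⟩,
      h.prop.1⟩, h.prop.2.insert fun U hU _ => disjoint_left.2 fun _ ⟨w, h8, h9⟩ h10 =>
        (h6 (interior_subset h8)).1.2 (subset_closure (mem_biUnion hU (h9 ▸ h10 :)))⟩)
    (subset_insert _ _)
  exact h3.1.2 (subset_closure (mem_biUnion (h8 ▸ mem_insert _ _ : interior C ∈ 𝒰)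
    ⟨z, mem_interior_iff_mem_nhds.2 h4, rfl⟩))

lemma baire [BaireSpace Y] (hc : Continuous f) (ho : IsOpenMap f)
    (hK : ∀ y, IsCompact (f ⁻¹' {y})) : BaireSpace X := by
  refine ⟨fun O h1 h2 => dense_iff_inter_open.2 fun U hU hne => ?_⟩
  have h3 : ∀ n (W : Set X), ∃ 𝒰 : Set (Set X), IsOpen W → ((∀ U ∈ 𝒰, IsOpen U ∧
      closure U ⊆ W ∩ O n) ∧ 𝒰.PairwiseDisjoint (f '' ·)) ∧
      f '' W ⊆ closure (⋃ U ∈ 𝒰, f '' U) := fun n W => by
    by_cases hW : IsOpen W
    · exact (step hc hW (h1 n) (h2 n)).imp fun _ h _ => h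
    · exact ⟨∅, fun h => absurd h hW⟩
  choose 𝒰 h3 using h3
  let T : ℕ → Set (Set X) := fun n => n.rec {U} fun n T => ⋃ W ∈ T, 𝒰 n W
  have h4 : ∀ n, (∀ W ∈ T n, IsOpen W) ∧ (T n).PairwiseDisjoint (f '' ·) ∧
      f '' U ⊆ closure (⋃ W ∈ T n, f '' W) := fun n => by
    induction n with
    | zero => exact ⟨fun W h => h ▸ hU, pairwiseDisjoint_singleton _ _,
        (subset_biUnion_of_mem (u := (f '' ·)) (mem_singleton U)).trans subset_closure⟩
    | succ n ih =>
      refine ⟨fun V hV => ?_, fun V hV V' hV' h => ?_, ih.2.2.trans (closure_minimal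
        (closure_minimal (iUnion₂_subset fun W hW => (h3 n W (ih.1 W hW)).2.trans (closure_mono
        (biUnion_subset_biUnion_left (subset_biUnion_of_mem (u := 𝒰 n) hW)))) isClosed_closure
          |> subset_closure.trans) isClosed_closure)⟩
      · obtain ⟨W, h, h'⟩ := mem_iUnion₂.1 hV
        exact ((h3 n W (ih.1 W h)).1.1 V h').1
      · obtain ⟨W, h5, h6⟩ := mem_iUnion₂.1 hV
        obtain ⟨W', h7, h8⟩ := mem_iUnion₂.1 hV'
        rcases eq_or_ne W W' with rfl | h9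
        · exact (h3 n W (ih.1 W h5)).1.2 h6 h8 h
        · exact (ih.2.1 h5 h7 h9).mono (image_mono fun x hx =>
            (((h3 n W (ih.1 W h5)).1.1 V h6).2 (subset_closure hx)).1) (image_mono fun x hx =>
            (((h3 n W' (ih.1 W' h7)).1.1 V' h8).2 (subset_closure hx)).1)
  obtain ⟨y, h5, h6⟩ := (dense_iInter_of_isOpen (f := fun n => (⋃ W ∈ T n, f '' W) ∪
    (closure (f '' U))ᶜ) (fun n => (isOpen_biUnion fun W h => ho W ((h4 n).1 W h)).union
      isClosed_closure.isOpen_compl) fun n y => by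
        rw [closure_union]
        by_cases h : y ∈ closure (f '' U)
        · exact Or.inl (closure_minimal (h4 n).2.2 isClosed_closure h)
        · exact Or.inr (subset_closure h)).inter_open_nonempty _ (ho U hU) (hne.image f)
  choose W h7 h8 using fun n =>
    mem_iUnion₂.1 ((mem_iInter.1 h6 n).resolve_right fun h => h (subset_closure h5))
  have h9 : ∀ n, closure (W (n + 1)) ⊆ W n ∩ O n := fun n => by
    obtain ⟨V, h9, h10⟩ := mem_iUnion₂.1 (h7 (n + 1))
    have h11 := ((h3 n V ((h4 n).1 V h9)).1.1 _ h10).2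
    rwa [(h4 n).2.1.elim_set (h7 n) h9 y (h8 n)
      (image_mono (fun x hx => (h11 (subset_closure hx)).1) (h8 (n + 1)))]
  have h10 : Antitone W := antitone_nat_of_succ_le fun n x hx => (h9 n (subset_closure hx)).1
  obtain ⟨x, -, hx⟩ := (hK y).inter_iInter_nonempty (fun n => closure (W (n + 1)))
    (fun _ => isClosed_closure) fun t => by
      obtain ⟨x, h11, h12⟩ := h8 (t.sup id + 1)
      exact ⟨x, h12, mem_iInter₂.2 fun n hn => subset_closure
        (h10 (Nat.succ_le_succ (Finset.le_sup (f := id) hn)) h11)⟩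
  exact ⟨x, (show W 0 = U from h7 0) ▸ (h9 0 (mem_iInter.1 hx 0)).1,
    mem_iInter.2 fun n => (h9 n (mem_iInter.1 hx n)).2⟩

theorem result (G : Type*) [Group G] [TopologicalSpace G] [IsTopologicalGroup G] (K : Subgroup G)
    [K.Normal] (hK : IsCompact (K : Set G)) [BaireSpace (G ⧸ K)] : BaireSpace G :=
  baire (f := ((↑) : G → G ⧸ K)) QuotientGroup.continuous_mk QuotientGroup.isOpenMap_coe fun y => by
    obtain ⟨g, rfl⟩ := QuotientGroup.mk_surjective y
    convert hK.image (continuous_const_mul g) using 1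
    ext x
    rw [mem_preimage, mem_singleton_iff, eq_comm, QuotientGroup.eq]
    simp

end Pool.Agent.Results.MP_0c5bac_gt.Main
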